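import Pool.Agent.H58r.Master
import Pool.Agent.H20.Rect.Cos

set_option autoImplicit false

/-! MP_2b4d4f_co: rectangle-faced polyhedra with rational dihedral angles are orthogonal. -/

open Pool.Agent.H58r in
/-- Let `R` be a finite family of rectangles in `ℝ³` such that all but finitely many boundary
points of each rectangle lie on the boundary of exactly one other rectangle of the family (as for
the rectangles of a rectangle-faced polyhedron of any genus), and let `p` be a prime number.
If each angle between adjacent rectangles is a multiple of `π / 2`, or has a rational squared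
cosine whose denominator is divisible by `p`, or is a rational multiple of `π` (allowed if
`p = 2`), then all angles between adjacent rectangles are multiples of `π / 2`. -/
theorem Pool.Agent.Results.MP_2b4d4f_co.RationalAngles.result {ι : Type*} [Finite ι]
    (R : ι → Rect) (hR : ClosedUp R) (p : ℕ) (hp : p.Prime)
    (hang : ∀ i j, i ≠ j → (R i).Adjacent (R j) →
      (∃ k : ℤ, (R i).angle (R j) = k * (Real.pi / 2)) ∨
      (∃ r : ℚ, p ∣ r.den ∧ Real.cos ((R i).angle (R j)) ^ 2 = r) ∨
      (p = 2 ∧ ∃ q : ℚ, (R i).angle (R j) = q * Real.pi)) :
    ∀ i j, i ≠ j → (R i).Adjacent (R j) → ∃ k : ℤ, (R i).angle (R j) = k * (Real.pi / 2) := by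
  obtain ⟨B, hB⟩ := Pool.H20.Rect.exists_valuationSubring p hp
  refine rect_master hR B ?_
  intro i j hij hadj
  rcases hang i j hij hadj with h | ⟨r, hr, hr2⟩ | ⟨h2, q, hq⟩
  · exact Or.inl h
  · exact Or.inr (Pool.H20.Rect.not_mem_of_sq p hp B hB _ r hr2 hr)
  · by_cases hcase : ∃ k : ℤ, (R i).angle (R j) = k * (Real.pi / 2)
    · exact Or.inl hcase
    · right
      subst h2
      have hc : Real.cos ((R i).angle (R j)) ≠ 0 ∧ Real.sin ((R i).angle (R j)) ≠ 0 := by
        constructor
        · intro h
          apply hcase
          rw [cos_angle] at h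
          exact angle_of_dot (Or.inl h)
        · intro h
          apply hcase
          have h1 := Real.sin_sq_add_cos_sq ((R i).angle (R j))
          rw [h, cos_angle] at h1
          have h2 : ((R i).normal ⬝ᵥ (R j).normal) * ((R i).normal ⬝ᵥ (R j).normal) = 1 := by
            nlinarith
          exact angle_of_dot (Or.inr (mul_self_eq_one_iff.mp h2))
      refine Pool.H20.Rect.cos_not_mem B ?_ hc.2 hc.1 q.den_pos ?_
      · exact_mod_cast hB
      · have hqd : (q : ℝ) * q.den = q.num := by
          have := Rat.mul_den_eq_num q
          exact_mod_cast congrArg (fun x : ℚ => (x : ℝ)) this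
        have : (q.den : ℝ) * (R i).angle (R j) = (q.num : ℝ) * Real.pi := by
          rw [hq, ← hqd]; ring
        rw [this]
        exact Real.sin_int_mul_pi q.num
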