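import Pool.Agent.H58r.Master
import Pool.Agent.H20.Rect.Sec

set_option autoImplicit false

/-! MP_2b4d4f_co: arithmetic of the dihedral angles of a non-orthogonal rectangle-faced
polyhedron. -/

namespace Pool.Agent.Results.MP_2b4d4f_co.UnitIdeal

open Pool.Agent.H58r MvPolynomial

/-- The non-orthogonal pairs: pairs of adjacent rectangles of the family whose angle is not a
multiple of `π / 2`. -/
abbrev Bad {ι : Type*} (R : ι → Rect) : Type _ :=
  {x : ι × ι // x.1 ≠ x.2 ∧ (R x.1).Adjacent (R x.2) ∧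
    ¬ ∃ k : ℤ, (R x.1).angle (R x.2) = k * (Real.pi / 2)}

/-- The angle of a non-orthogonal pair. -/
noncomputable abbrev ang {ι : Type*} {R : ι → Rect} (x : Bad R) : ℝ :=
  (R x.1.1).angle (R x.1.2)

theorem cos_ne {ι : Type*} {R : ι → Rect} (x : Bad R) : Real.cos (ang x) ≠ 0 := by
  intro h
  apply x.2.2.2
  rw [ang, cos_angle] at h
  exact angle_of_dot (Or.inl h)

theorem sin_ne {ι : Type*} {R : ι → Rect} (x : Bad R) : Real.sin (ang x) ≠ 0 := by
  intro h
  apply x.2.2.2
  have h1 := Real.sin_sq_add_cos_sq (ang x)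
  rw [h, ang, cos_angle] at h1
  have h2 : ((R x.1.1).normal ⬝ᵥ (R x.1.2).normal) *
      ((R x.1.1).normal ⬝ᵥ (R x.1.2).normal) = 1 := by
    nlinarith
  exact angle_of_dot (Or.inr (mul_self_eq_one_iff.mp h2))

/-- Every valuation ring of `ℝ` contains the cosine of some non-orthogonal pair. -/
theorem exists_cos_mem {ι : Type*} [Finite ι] (R : ι → Rect) (hR : ClosedUp R)
    (hne : Nonempty (Bad R)) (B : ValuationSubring ℝ) : ∃ x : Bad R, Real.cos (ang x) ∈ B := by
  by_contra hcon
  push Not at hcon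
  obtain ⟨⟨⟨i, j⟩, hij, hadj, hang⟩⟩ := hne
  apply hang
  refine rect_master hR B ?_ i j hij hadj
  intro i j hij hadj
  by_cases h : ∃ k : ℤ, (R i).angle (R j) = k * (Real.pi / 2)
  · exact Or.inl h
  · exact Or.inr (hcon ⟨⟨i, j⟩, hij, hadj, h⟩)

/-- A real number which is integral over `ℤ[c]` lies in every valuation ring that contains `c`. -/
theorem mem_of_isIntegral (B : ValuationSubring ℝ) (c γ : ℝ) (hc : c ∈ B)
    (h : IsIntegral (Algebra.adjoin ℤ {c}) γ) : γ ∈ B := by
  have hle : (Algebra.adjoin ℤ {c}).toSubring ≤ B.toSubring := by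
    intro y hy
    have hy' : y ∈ Algebra.adjoin ℤ {c} := hy
    induction hy' using Algebra.adjoin_induction with
    | mem x hx => rw [Set.mem_singleton_iff] at hx; rw [hx]; exact hc
    | algebraMap r => exact intCast_mem B r
    | add x y _ _ h1 h2 => exact add_mem (h1 (by assumption)) (h2 (by assumption))
    | mul x y _ _ h1 h2 => exact mul_mem (h1 (by assumption)) (h2 (by assumption))
  have h1 : ((algebraMap B ℝ).comp (Subring.inclusion hle)).IsIntegralElem γ := h
  have h2 : IsIntegral B γ := RingHom.IsIntegralElem.of_comp h1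
  obtain ⟨y, hy⟩ := IsIntegrallyClosed.algebraMap_eq_of_integral h2
  rw [← hy]
  exact y.2

/-- A real number in all valuation rings of `ℝ` is an algebraic integer. -/
theorem isIntegral_of_forall_mem (γ : ℝ) (h : ∀ B : ValuationSubring ℝ, γ ∈ B) :
    IsIntegral ℤ γ := by
  by_contra hint
  let A : Subring ℝ := (integralClosure ℤ ℝ).toSubring
  have hA : IsIntegrallyClosedIn A ℝ := by
    show IsIntegrallyClosedIn (integralClosure ℤ ℝ) ℝ
    infer_instance
  obtain ⟨V, -, hV⟩ := Subring.exists_le_valuationSubring_of_isIntegrallyClosedIn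
    (R := A) (x := γ) hint
  exact hV (h V)

/-- Let `R` be a finite family of rectangles in `ℝ³` such that all but finitely many boundary
points of each rectangle lie on the boundary of exactly one other rectangle of the family, and
suppose that some angle of adjacent rectangles is not a multiple of `π / 2`. Let `T` be the set
of the angles of adjacent rectangles that are not multiples of `π / 2`. Then
(1) some polynomial with integer coefficients and constant term `0` takes the value `1` at the
numbers `1 / (cos² t sin² t) = 4 / sin² 2t`, `t ∈ T`;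
(2) every real number that is integral over `ℤ[cos t]` for each `t ∈ T` is an algebraic integer;
(3) if `cos² t ∈ {γ, 1 - γ}` for all `t ∈ T` and one real `γ`, then `γ` is an algebraic
integer. -/
theorem result {ι : Type*} [Finite ι] (R : ι → Rect) (hR : ClosedUp R)
    (hne : ∃ i j, i ≠ j ∧ (R i).Adjacent (R j) ∧
      ¬ ∃ k : ℤ, (R i).angle (R j) = k * (Real.pi / 2)) :
    (∃ P : MvPolynomial (Bad R) ℤ, constantCoeff P = 0 ∧
      aeval (fun x : Bad R => 1 / (Real.cos (ang x) ^ 2 * Real.sin (ang x) ^ 2)) P = 1) ∧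
    (∀ γ : ℝ, (∀ x : Bad R, IsIntegral (Algebra.adjoin ℤ {Real.cos (ang x)}) γ) →
      IsIntegral ℤ γ) ∧
    ∀ γ : ℝ, (∀ x : Bad R, Real.cos (ang x) ^ 2 = γ ∨ Real.cos (ang x) ^ 2 = 1 - γ) →
      IsIntegral ℤ γ := by
  have hne' : Nonempty (Bad R) := by
    obtain ⟨i, j, hij, hadj, hang⟩ := hne
    exact ⟨⟨⟨i, j⟩, hij, hadj, hang⟩⟩
  refine ⟨?_, ?_, ?_⟩
  · obtain ⟨P, h0, h1⟩ := Pool.H20.Rect.exists_poly_of_no_valuation
      (fun x : Bad R => Real.cos (ang x) ^ 2 * Real.sin (ang x) ^ 2)
      (fun x => mul_ne_zero (pow_ne_zero 2 (cos_ne x)) (pow_ne_zero 2 (sin_ne x)))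
      (fun B => by
        obtain ⟨x, hx⟩ := exists_cos_mem R hR hne' B
        refine ⟨x, mul_mem (pow_mem hx 2) ?_⟩
        have h2 : Real.sin (ang x) ^ 2 = 1 - Real.cos (ang x) ^ 2 := by
          have := Real.sin_sq_add_cos_sq (ang x)
          linarith
        rw [h2]
        exact sub_mem (one_mem B) (pow_mem hx 2))
    refine ⟨P, h0, ?_⟩
    simpa only [one_div] using h1
  · intro γ hγ
    apply isIntegral_of_forall_mem
    intro B
    obtain ⟨x, hx⟩ := exists_cos_mem R hR hne' B
    exact mem_of_isIntegral B _ γ hx (hγ x)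
  · intro γ hγ
    apply isIntegral_of_forall_mem
    intro B
    obtain ⟨x, hx⟩ := exists_cos_mem R hR hne' B
    rcases hγ x with h | h
    · rw [← h]; exact pow_mem hx 2
    · have h2 : γ = 1 - Real.cos (ang x) ^ 2 := by rw [h]; ring
      rw [h2]
      exact sub_mem (one_mem B) (pow_mem hx 2)

end Pool.Agent.Results.MP_2b4d4f_co.UnitIdeal
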